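import Pool.Agent.H73.GMS.Stmts

/-! # Board gms (MP_213ba5_lc), row GCH: the good sets have finite character -/

set_option autoImplicit false

open Classical

namespace GMS

section

variable {F : Type*} [Group F]

theorem cl_mono (K N₀ : Subgroup F) {S T : Set F} (h : S ⊆ T) : cl K N₀ S ≤ cl K N₀ T := by
  apply Subgroup.closure_mono
  apply Set.union_subset_union_left
  rintro x ⟨g, hg, s, hs, rfl⟩
  exact ⟨g, hg, s, h hs, rfl⟩

theorem cl_le {K N₀ : Subgroup F} (hN : N₀ ≤ K) {S : Set F} (h : S ⊆ (K : Set F)) :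
    cl K N₀ S ≤ K := by
  unfold cl
  rw [Subgroup.closure_le]
  apply Set.union_subset
  · rintro x ⟨g, hg, s, hs, rfl⟩
    exact K.mul_mem (K.mul_mem hg (h hs)) (K.inv_mem hg)
  · exact hN

theorem cl_empty (K N₀ : Subgroup F) : cl K N₀ ∅ = N₀ := by
  unfold cl
  have h : {x : F | ∃ g ∈ K, ∃ s ∈ (∅ : Set F), x = g * s * g⁻¹} = ∅ := by
    ext x
    simp
  rw [h, Set.empty_union, Subgroup.closure_eq]

/-- every element of `cl S` is in `cl T` for a finite `T ⊆ S` -/
theorem cl_fin (K N₀ : Subgroup F) (S : Set F) {x : F} (hx : x ∈ cl K N₀ S) :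
    ∃ T : Set F, T ⊆ S ∧ T.Finite ∧ x ∈ cl K N₀ T := by
  unfold cl at hx
  induction hx using Subgroup.closure_induction with
  | mem x hx =>
    rcases hx with ⟨g, hg, s, hs, rfl⟩ | hx
    · refine ⟨{s}, Set.singleton_subset_iff.2 hs, Set.finite_singleton s, ?_⟩
      exact Subgroup.subset_closure (Or.inl ⟨g, hg, s, rfl, rfl⟩)
    · exact ⟨∅, Set.empty_subset _, Set.finite_empty, Subgroup.subset_closure (Or.inr hx)⟩
  | one => exact ⟨∅, Set.empty_subset _, Set.finite_empty, Subgroup.one_mem _⟩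
  | mul x y _ _ ihx ihy =>
    obtain ⟨T₁, h1, h2, h3⟩ := ihx
    obtain ⟨T₂, h4, h5, h6⟩ := ihy
    exact ⟨T₁ ∪ T₂, Set.union_subset h1 h4, h2.union h5,
      Subgroup.mul_mem _ (cl_mono K N₀ Set.subset_union_left h3)
        (cl_mono K N₀ Set.subset_union_right h6)⟩
  | inv x _ ih =>
    obtain ⟨T, h1, h2, h3⟩ := ih
    exact ⟨T, h1, h2, Subgroup.inv_mem _ h3⟩

theorem cl_finset (K N₀ : Subgroup F) (S : Set F) (U : Finset F)
    (hU : ∀ x ∈ U, x ∈ cl K N₀ S) : ∃ T : Set F, T ⊆ S ∧ T.Finite ∧ ∀ x ∈ U, x ∈ cl K N₀ T := by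
  induction U using Finset.induction_on with
  | empty => exact ⟨∅, Set.empty_subset _, Set.finite_empty, fun x hx => absurd hx (Finset.notMem_empty x)⟩
  | insert a U _ ih =>
    obtain ⟨T₁, h1, h2, h3⟩ := ih fun x hx => hU x (Finset.mem_insert_of_mem hx)
    obtain ⟨T₂, h4, h5, h6⟩ := cl_fin K N₀ S (hU a (Finset.mem_insert_self a U))
    refine ⟨T₁ ∪ T₂, Set.union_subset h1 h4, h2.union h5, ?_⟩
    intro x hx
    rcases Finset.mem_insert.1 hx with rfl | hx
    · exact cl_mono K N₀ Set.subset_union_right h6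
    · exact cl_mono K N₀ Set.subset_union_left (h3 x hx)

/-- **GCH** -/
theorem GCH : GCHStmt (F := F) := by
  intro K N₀ hK hN hne
  refine ⟨⟨Set.empty_subset _, ?_⟩, ?_, ?_⟩
  · rw [cl_empty]
    exact hne
  · rintro S T hST ⟨hT, hT'⟩
    refine ⟨hST.trans hT, fun h => hT' ?_⟩
    exact le_antisymm (cl_le hN hT) (h.symm.le.trans (cl_mono K N₀ hST))
  · intro S hS
    have hSK : S ⊆ (K : Set F) := by
      intro s hs
      have h0 : Gd K N₀ ({s} : Set F) :=
        hS {s} (Set.singleton_subset_iff.2 hs) (Set.finite_singleton s)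
      exact h0.1 (Set.mem_singleton s)
    refine ⟨hSK, fun h => ?_⟩
    obtain ⟨U, hU⟩ := hK
    obtain ⟨T, h1, h2, h3⟩ := cl_finset K N₀ S U (by
      intro x hx
      have h4 : x ∈ K := hU.le (Subgroup.subset_closure hx)
      exact h.symm.le h4)
    apply (hS T h1 h2).2
    have h5 : K ≤ cl K N₀ T := hU.symm.le.trans ((Subgroup.closure_le _).2 fun x hx => h3 x hx)
    exact le_antisymm (cl_le hN (h1.trans hSK)) h5

end

end GMS
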